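import Pool.Agent.W555.KS.Defs2

/-! Generic coloured forms in characteristic two (`StBal2`). -/

set_option autoImplicit false

namespace Pool.Agent.W928.KS

open Finset MvPolynomial Pool.Agent.W555.KS

section comb

variable {n m : ℕ} {N : ℕ} (e : Fin N ≃ Fin m × Fin 2) (κ : Fin n → Fin m)

/-- the function with equal values on the two rows of each colour -/
def hw (w : Fin m → Fin n) : Fin N → Fin n := fun i => w (e i).1

lemma fib_hw (w : Fin m → Fin n) (v : Fin n) :
    fib (hw e w) v = 2 * (univ.filter fun c => w c = v).card := by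
  unfold fib hw
  have h1 : (univ.filter fun i : Fin N => w (e i).1 = v).card =
      (univ.filter fun p : Fin m × Fin 2 => w p.1 = v).card := by
    refine Finset.card_bij (fun i _ => e i) ?_ ?_ ?_
    · intro i hi
      simpa using hi
    · intro i _ j _ h
      exact e.injective h
    · intro p hp
      exact ⟨e.symm p, by simpa using hp, by simp⟩
  rw [h1]
  have h2 : (univ.filter fun p : Fin m × Fin 2 => w p.1 = v) =
      (univ.filter fun c => w c = v) ×ˢ (univ : Finset (Fin 2)) := by
    ext p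
    simp
  rw [h2, Finset.card_product, Finset.card_univ, Fintype.card_fin]
  ring

lemma even_hw (w : Fin m → Fin n) : EvenFun (hw e w) := by
  intro v
  rw [fib_hw]
  exact even_two_mul _

lemma halfMon_hw {R : Type*} [CommRing R] (x : Fin n → R) (w : Fin m → Fin n) :
    halfMon x (hw e w) = ∏ c, x (w c) := by
  unfold halfMon
  rw [← Finset.prod_fiberwise (univ : Finset (Fin m)) w (fun c => x (w c))]
  refine Finset.prod_congr rfl (fun v _ => ?_)
  rw [fib_hw, Nat.mul_div_cancel_left _ (by norm_num)]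
  rw [Finset.prod_congr rfl (g := fun _ => x v) (fun c hc => by
    rw [(Finset.mem_filter.1 hc).2])]
  rw [Finset.prod_const]

lemma hw_inj {w w' : Fin m → Fin n} (h : hw e w = hw e w') : w = w' := by
  funext c
  have := congrFun h (e.symm (c, 0))
  simpa [hw] using this

lemma eq_hw (h : Fin N → Fin n) (heven : EvenFun h) (hκ : ∀ i, κ (h i) = (e i).1) :
    h = hw e (fun c => h (e.symm (c, 0))) := by
  funext i
  unfold hw
  rcases hij : e i with ⟨c, j⟩
  have hi : i = e.symm (c, j) := by rw [← hij]; simp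
  fin_cases j
  · simp only [Fin.zero_eta] at hi
    show h i = h (e.symm (c, 0))
    rw [← hi]
  · simp only [Fin.mk_one] at hi
    set v := h i with hv
    have h1 : 1 < (univ.filter fun i' => h i' = v).card := by
      have h2 := heven v
      unfold fib at h2
      have h3 : 0 < (univ.filter fun i' => h i' = v).card :=
        Finset.card_pos.2 ⟨i, by simp [hv]⟩
      rcases h2 with ⟨r, hr⟩
      omega
    obtain ⟨i', hi', hne⟩ := Finset.exists_mem_ne h1 i
    have h4 : h i' = v := (Finset.mem_filter.1 hi').2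
    have h5 : (e i').1 = c := by
      rw [← hκ, h4, hv, hκ, hij]
    have h6 : (e i').2 ≠ 1 := by
      intro h7
      apply hne
      apply e.injective
      rw [hij]
      exact Prod.ext h5 h7
    have h8 : (e i').2 = 0 := by
      rcases Fin.exists_fin_two.1 ⟨(e i').2, rfl⟩ with h9 | h9
      · exact h9
      · exact absurd h9 h6
    have h9 : e.symm (c, 0) = i' := by
      rw [Equiv.symm_apply_eq]
      exact (Prod.ext h5 h8).symm
    show v = h (e.symm (c, 0))
    rw [h9, h4]

/-- the sum over even functions -/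
lemma sum_even {k R : Type*} [CommRing k] [CommRing R] (b : Fin m × Fin 2 → Fin n → k)
    (hb : ∀ p v, κ v ≠ p.1 → b p v = 0) (x : Fin n → R) (F : R → k) :
    ∑ h ∈ (univ : Finset (Fin N → Fin n)).filter EvenFun,
      (∏ i, b (e i) (h i)) * F (halfMon x h) =
    ∑ w ∈ (univ : Finset (Fin m → Fin n)).filter (fun w => ∀ c, κ (w c) = c),
      (∏ p : Fin m × Fin 2, b p (w p.1)) * F (∏ c, x (w c)) := by
  classical
  have h1 : ∑ w ∈ (univ : Finset (Fin m → Fin n)).filter (fun w => ∀ c, κ (w c) = c),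
      (∏ p : Fin m × Fin 2, b p (w p.1)) * F (∏ c, x (w c)) =
      ∑ h ∈ ((univ : Finset (Fin m → Fin n)).filter (fun w => ∀ c, κ (w c) = c)).image (hw e),
        (∏ i, b (e i) (h i)) * F (halfMon x h) := by
    rw [Finset.sum_image (fun w _ w' _ h => hw_inj e h)]
    refine Finset.sum_congr rfl (fun w _ => ?_)
    rw [halfMon_hw]
    congr 1
    rw [← e.prod_comp]
    rfl
  rw [h1]
  symm
  apply Finset.sum_subset
  · intro h hh
    rw [Finset.mem_image] at hh
    obtain ⟨w, _, rfl⟩ := hh
    exact Finset.mem_filter.2 ⟨Finset.mem_univ _, even_hw e w⟩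
  · intro h hh hnot
    by_contra hne
    have hprod : ∏ i, b (e i) (h i) ≠ 0 := left_ne_zero_of_mul hne
    have hκ : ∀ i, κ (h i) = (e i).1 := by
      intro i
      by_contra hc
      exact hprod (Finset.prod_eq_zero (Finset.mem_univ i) (hb _ _ hc))
    apply hnot
    rw [Finset.mem_image]
    refine ⟨fun c => h (e.symm (c, 0)), Finset.mem_filter.2 ⟨Finset.mem_univ _, fun c => ?_⟩,
      (eq_hw e κ h (Finset.mem_filter.1 hh).2 hκ).symm⟩
    rw [hκ]
    simp

/-- the squarefree monomial of `w` -/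
def sw (w : Fin m → Fin n) : Finset ((Fin m × Fin 2) × Fin n) :=
  univ.image fun p : Fin m × Fin 2 => (p, w p.1)

lemma mem_sw (w : Fin m → Fin n) (p : Fin m × Fin 2) (v : Fin n) :
    (p, v) ∈ sw w ↔ v = w p.1 := by
  unfold sw
  rw [Finset.mem_image]
  constructor
  · rintro ⟨q, _, hq⟩
    have h1 := congrArg Prod.fst hq
    have h2 := congrArg Prod.snd hq
    simp only at h1 h2
    rw [← h2, h1]
  · rintro rfl
    exact ⟨p, Finset.mem_univ _, rfl⟩

lemma sw_inj {w w' : Fin m → Fin n} (h : sw w = sw w') : w = w' := by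
  funext c
  have h1 : ((c, (0 : Fin 2)), w c) ∈ sw w' := by
    rw [← h, mem_sw]
  exact (mem_sw _ _ _).1 h1

lemma prod_sw {R : Type*} [CommRing R] (w : Fin m → Fin n)
    (f : (Fin m × Fin 2) × Fin n → R) : ∏ p ∈ sw w, f p = ∏ p : Fin m × Fin 2, f (p, w p.1) := by
  unfold sw
  rw [Finset.prod_image]
  intro p _ q _ h
  exact congrArg Prod.fst h

/-- product of the variables in the rows `(c, 0)` -/
def cc {R : Type*} [CommRing R] (x : Fin n → R) (s : Finset ((Fin m × Fin 2) × Fin n)) : R :=
  ∏ p ∈ s, (if p.1.2 = 0 then x p.2 else 1)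

lemma prod_sw0 {R : Type*} [CommRing R] (w : Fin m → Fin n) (x : Fin n → R) :
    cc x (sw w) = ∏ c, x (w c) := by
  unfold cc
  rw [prod_sw, Fintype.prod_prod_type]
  refine Finset.prod_congr rfl (fun c _ => ?_)
  rw [Fin.prod_univ_two]
  simp

end comb

theorem bal2 (hfan : StFan) (h1e : StT1E) (hind : StInd) : StBal2 := by
  classical
  intro n δ K κ hK hE w hw'
  let ι : Type := (Fin (δ + 1) × Fin 2) × Fin n
  let k : Type := FractionRing (MvPolynomial ι (ZMod 2))
  let al : MvPolynomial ι (ZMod 2) →+* k := algebraMap _ _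
  have hchar : CharP k 2 := by
    have h1 : CharP (MvPolynomial ι (ZMod 2)) 2 := inferInstance
    exact charP_of_injective_algebraMap (IsFractionRing.injective (MvPolynomial ι (ZMod 2)) k) 2
  let th : Fin (δ + 1) × Fin 2 → MvPolynomial (Fin n) k := fun ij =>
    ∑ v ∈ univ.filter (fun v => κ v = ij.1), C (al (X (ij, v))) * X v
  let I : Ideal (MvPolynomial (Fin n) k) := srI k K ⊔ Ideal.span (Set.range th)
  show (∏ i, X (w i) : MvPolynomial (Fin n) k) ∈ I
  rw [← Ideal.Quotient.eq_zero_iff_mem]
  let R : Type := MvPolynomial (Fin n) k ⧸ I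
  let x : Fin n → R := fun v => Ideal.Quotient.mk I (X v)
  let N : ℕ := 2 * δ + 1 + 1
  let e : Fin (2 * δ + 1 + 1) ≃ Fin (δ + 1) × Fin 2 := Fintype.equivOfCardEq (by
    simp only [Fintype.card_fin, Fintype.card_prod]; ring)
  let b : Fin (δ + 1) × Fin 2 → Fin n → k := fun p v => if κ v = p.1 then al (X (p, v)) else 0
  have hbsum : ∀ p, ∑ v, b p v • x v = 0 := by
    intro p
    have h1 : ∑ v, b p v • x v = Ideal.Quotient.mk I (th p) := by
      show _ = Ideal.Quotient.mk I (∑ v ∈ univ.filter (fun v => κ v = p.1), C (al (X (p, v))) * X v)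
      rw [map_sum, Finset.sum_filter]
      refine Finset.sum_congr rfl (fun v _ => ?_)
      show (if κ v = p.1 then al (X (p, v)) else 0) • x v = _
      split_ifs with h
      · rw [map_mul, Algebra.smul_def]
        rfl
      · rw [zero_smul]
    rw [h1, Ideal.Quotient.eq_zero_iff_mem]
    exact Ideal.mem_sup_right (Ideal.subset_span ⟨p, rfl⟩)
  have hx : ∀ σ, σ ∉ K → ∏ v ∈ σ, x v = 0 := by
    intro σ hσ
    have h1 : ∏ v ∈ σ, x v = Ideal.Quotient.mk I (∏ v ∈ σ, X v) := by
      rw [map_prod]
    rw [h1, Ideal.Quotient.eq_zero_iff_mem]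
    exact Ideal.mem_sup_left (Ideal.subset_span ⟨σ, hσ, rfl⟩)
  have hmain : ∀ M : R →ₗ[k] k, M (∏ i, x (w i)) = 0 := by
    intro M
    have h1 := h1e k R n (2 * δ + 1) (δ + 1) 0 K (fun i v => b (e i) v) x M 0 hK
      (hfan n (2 * δ + 1) K hK hE) hx (fun i => hbsum _) (hbsum _).symm (by ring) (by simp)
    simp only [pow_zero, one_mul] at h1
    have h2 := sum_even e κ b (fun p v h => if_neg h) x (fun r => M r ^ 2)
    rw [h2] at h1
    set W : Finset (Fin (δ + 1) → Fin n) := univ.filter (fun w => ∀ c, κ (w c) = c) with hW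
    have h3 : ∑ s ∈ W.image sw, al (∏ i ∈ s, X i) *
        (M (cc x s)) ^ 2 = 0 := by
      rw [Finset.sum_image (fun w _ w' _ h => sw_inj h), ← h1]
      refine Finset.sum_congr rfl (fun u hu => ?_)
      rw [prod_sw0, prod_sw, map_prod]
      congr 1
      refine Finset.prod_congr rfl (fun p _ => ?_)
      have h4 : κ (u p.1) = p.1 := (Finset.mem_filter.1 hu).2 p.1
      show al (X (p, u p.1)) = (if κ (u p.1) = p.1 then al (X (p, u p.1)) else 0)
      rw [if_pos h4]
    have h4 := hind ι (W.image sw)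
      (fun s => M (cc x s)) h3 (sw w)
      (Finset.mem_image_of_mem _ (Finset.mem_filter.2 ⟨Finset.mem_univ _, hw'⟩))
    rwa [prod_sw0] at h4
  have h5 : Ideal.Quotient.mk I (∏ i, X (w i)) = ∏ i, x (w i) := by
    rw [map_prod]
  rw [h5]
  exact (Module.forall_dual_apply_eq_zero_iff k (∏ i, x (w i))).1 hmain

end Pool.Agent.W928.KS
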